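import Pool.Agent.Helper88.PP.Goals

/-! The second moment of a function given by labels, for the parameters of the application. -/

set_option autoImplicit false

open Finset Filter Topology

open scoped Classical

namespace Pool.Agent.Helper3.PP

open Pool.Agent.Helper88.PP

theorem om_nonneg (y z : ℕ) : 0 ≤ om y z := by
  unfold om
  refine Finset.prod_nonneg fun p hp => ?_
  have hp' : p.Prime := (Finset.mem_filter.mp hp).2
  have h1 : (1 : ℝ) ≤ p := by exact_mod_cast hp'.one_lt.le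
  rw [sub_nonneg]
  exact div_le_one_of_le₀ h1 (by positivity)

theorem XX_nonneg (x : ℕ) : 0 ≤ XX x := by
  unfold XX
  positivity

theorem VV_nonneg (z m m' : ℕ) : 0 ≤ VV z m m' := by
  unfold VV
  positivity

theorem V1_nonneg (E z : ℕ) : 0 ≤ V1 E z := by
  unfold V1
  positivity

theorem aa_nonneg (q E z r : ℕ) : 0 ≤ aa q E z r := by
  unfold aa
  have := VV_nonneg z (m1 q E) (m2 q E)
  positivity

theorem mem_SS {z X r : ℕ} : r ∈ SS z X ↔ (1 ≤ r ∧ r < X) ∧ Sf z r := by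
  simp [SS]

theorem mem_LA {z m m' r : ℕ} : r ∈ LA z m m' ↔ r ∈ SS z (z ^ m') ∧ z ^ m ≤ r := by
  simp [LA]

theorem LA_sub {z m m' M r : ℕ} (hz : 1 ≤ z) (h : m' ≤ M) (hr : r ∈ LA z m m') :
    r ∈ SS z (z ^ M) := by
  rw [mem_LA, mem_SS] at hr
  rw [mem_SS]
  exact ⟨⟨hr.1.1.1, hr.1.1.2.trans_le (Nat.pow_le_pow_right hz h)⟩, hr.1.2⟩

theorem m2_le (q E : ℕ) : m2 q E ≤ MM E := by
  unfold m2 m1 MM
  calc q * (E / 16 / (2 * q)) ≤ 2 * q * (E / 16 / (2 * q)) :=
        Nat.mul_le_mul_right _ (by omega)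
    _ ≤ E / 16 := Nat.mul_div_le _ _

theorem m1_pos {q E : ℕ} (hq : 1 ≤ q) (hE : 32 * q ≤ E) : 1 ≤ m1 q E := by
  unfold m1
  rw [Nat.one_le_div_iff (by omega)]
  omega

/-- the sum over the sets containing `F` with at most `k` elements -/
theorem sumBB {ι : Type} [Fintype ι] [DecidableEq ι] (F : Finset ι) (k : ℕ) (t : ℝ)
    (ht : 0 ≤ t) :
    ∑ B ∈ (univ : Finset (Finset ι)).filter (fun B => F ⊆ B ∧ B.card ≤ k), t ^ B.card
      ≤ t ^ F.card * (1 + Fintype.card ι * t) ^ k := by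
  have h1 : ∀ B ∈ (univ : Finset (Finset ι)).filter (fun B => F ⊆ B ∧ B.card ≤ k),
      t ^ B.card = t ^ F.card * t ^ (B \ F).card := by
    intro B hB
    have hB' := (Finset.mem_filter.mp hB).2
    rw [← pow_add, Finset.card_sdiff_of_subset hB'.1, Nat.add_sub_cancel'
      (Finset.card_le_card hB'.1)]
  rw [Finset.sum_congr rfl h1, ← Finset.mul_sum]
  refine mul_le_mul_of_nonneg_left ?_ (by positivity)
  have h2 : ∑ B ∈ (univ : Finset (Finset ι)).filter (fun B => F ⊆ B ∧ B.card ≤ k),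
      t ^ (B \ F).card ≤ ∑ B ∈ (univ : Finset (Finset ι)).filter (fun B => B.card ≤ k),
      t ^ B.card := by
    have h3 : Set.InjOn (fun B : Finset ι => B \ F)
        ((univ : Finset (Finset ι)).filter (fun B => F ⊆ B ∧ B.card ≤ k)) := by
      intro B hB B' hB' h
      have hB1 := (Finset.mem_filter.mp (Finset.mem_coe.mp hB)).2
      have hB2 := (Finset.mem_filter.mp (Finset.mem_coe.mp hB')).2
      simp only at h
      rw [← Finset.sdiff_union_of_subset hB1.1, h, Finset.sdiff_union_of_subset hB2.1]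
    rw [← Finset.sum_image (f := fun B : Finset ι => t ^ B.card) h3]
    refine Finset.sum_le_sum_of_subset_of_nonneg ?_ fun _ _ _ => by positivity
    intro B hB
    obtain ⟨B', hB', rfl⟩ := Finset.mem_image.mp hB
    have hB1 := (Finset.mem_filter.mp hB').2
    exact Finset.mem_filter.mpr ⟨Finset.mem_univ _,
      (Finset.card_le_card Finset.sdiff_subset).trans hB1.2⟩
  refine h2.trans ?_
  have h3 : ∑ B ∈ (univ : Finset (Finset ι)).filter (fun B => B.card ≤ k), t ^ B.card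
      = ∑ j ∈ range (k + 1), ∑ B ∈ ((univ : Finset (Finset ι)).filter
        (fun B => B.card ≤ k)).filter (fun B => B.card = j), t ^ B.card := by
    refine (Finset.sum_fiberwise_of_maps_to (fun B hB => ?_) _).symm
    have := (Finset.mem_filter.mp hB).2
    exact Finset.mem_range.mpr (by omega)
  rw [h3, add_comm (1 : ℝ), add_pow]
  refine Finset.sum_le_sum fun j hj => ?_
  have hj' : j ≤ k := by have := Finset.mem_range.mp hj; omega
  have h4 : ∑ B ∈ ((univ : Finset (Finset ι)).filter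
        (fun B => B.card ≤ k)).filter (fun B => B.card = j), t ^ B.card
      ≤ (Fintype.card ι).choose j * t ^ j := by
    have h5 : ∀ B ∈ ((univ : Finset (Finset ι)).filter
        (fun B => B.card ≤ k)).filter (fun B => B.card = j), t ^ B.card = t ^ j := by
      intro B hB
      rw [(Finset.mem_filter.mp hB).2]
    rw [Finset.sum_congr rfl h5, Finset.sum_const, nsmul_eq_mul]
    refine mul_le_mul_of_nonneg_right ?_ (by positivity)
    have h6 : ((univ : Finset (Finset ι)).filter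
        (fun B => B.card ≤ k)).filter (fun B => B.card = j) ⊆ powersetCard j univ := by
      intro B hB
      exact Finset.mem_powersetCard.mpr ⟨Finset.subset_univ _, (Finset.mem_filter.mp hB).2⟩
    have h7 := Finset.card_le_card h6
    rw [Finset.card_powersetCard, Finset.card_univ] at h7
    exact_mod_cast h7
  refine h4.trans ?_
  rw [one_pow, mul_one, mul_pow]
  have h5 : (((Fintype.card ι).choose j : ℕ) : ℝ) ≤ (Fintype.card ι : ℝ) ^ j := by
    exact_mod_cast Nat.choose_le_pow _ _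
  have h6 : (1 : ℝ) ≤ (k.choose j : ℕ) := by
    exact_mod_cast Nat.choose_pos hj'
  calc ((Fintype.card ι).choose j : ℝ) * t ^ j ≤ (Fintype.card ι : ℝ) ^ j * t ^ j :=
        mul_le_mul_of_nonneg_right h5 (by positivity)
    _ = (Fintype.card ι : ℝ) ^ j * t ^ j * 1 := by ring
    _ ≤ (Fintype.card ι : ℝ) ^ j * t ^ j * (k.choose j : ℕ) :=
        mul_le_mul_of_nonneg_left h6 (by positivity)


theorem expo (c L A ε : ℝ) (k : ℕ) (hc : 0 < c) (hL : 0 ≤ L) (hA : 0 < A) (hε : 0 < ε) :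
    ∃ E1 : ℕ, ∀ E : ℕ, E1 ≤ E →
      E * ((1 + L * (E : ℝ) ^ 3) * (1 + A * E * (L * (E : ℝ) ^ 3)) ^ k) * Real.exp (-(c * E))
        ≤ ε / 2 := by
  have h1 : Tendsto (fun E : ℕ => c * (E : ℝ)) atTop atTop :=
    tendsto_natCast_atTop_atTop.const_mul_atTop hc
  have h2 := (Real.tendsto_pow_mul_exp_neg_atTop_nhds_zero (4 + 4 * k)).comp h1
  have h3 := h2.const_mul ((1 + L) * (1 + A * L) ^ k / c ^ (4 + 4 * k))
  rw [mul_zero] at h3
  have h4 := (h3.eventually (gt_mem_nhds (half_pos hε))).and (eventually_ge_atTop 1)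
  obtain ⟨E1, hE1⟩ := eventually_atTop.mp h4
  refine ⟨E1, fun E hE => ?_⟩
  obtain ⟨h5, h6⟩ := hE1 E hE
  have hE' : (1 : ℝ) ≤ E := by exact_mod_cast h6
  have e3 : (1 : ℝ) ≤ (E : ℝ) ^ 3 := one_le_pow₀ hE'
  have e4 : (1 : ℝ) ≤ (E : ℝ) ^ 4 := one_le_pow₀ hE'
  have h7 : 1 + L * (E : ℝ) ^ 3 ≤ (1 + L) * (E : ℝ) ^ 3 := by nlinarith
  have h8 : 1 + A * E * (L * (E : ℝ) ^ 3) ≤ (1 + A * L) * (E : ℝ) ^ 4 := by
    have : A * E * (L * (E : ℝ) ^ 3) = A * L * (E : ℝ) ^ 4 := by ring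
    rw [this]
    nlinarith [mul_nonneg hA.le hL]
  have h9 : (1 + A * E * (L * (E : ℝ) ^ 3)) ^ k ≤ ((1 + A * L) * (E : ℝ) ^ 4) ^ k :=
    pow_le_pow_left₀ (by positivity) h8 k
  have hAL : 0 ≤ A * L := mul_nonneg hA.le hL
  calc E * ((1 + L * (E : ℝ) ^ 3) * (1 + A * E * (L * (E : ℝ) ^ 3)) ^ k) * Real.exp (-(c * E))
      ≤ E * (((1 + L) * (E : ℝ) ^ 3) * ((1 + A * L) * (E : ℝ) ^ 4) ^ k) *
        Real.exp (-(c * E)) := by
        refine mul_le_mul_of_nonneg_right (mul_le_mul_of_nonneg_left ?_ (by positivity))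
          (Real.exp_pos _).le
        exact mul_le_mul h7 h9 (by positivity) (by positivity)
    _ = (1 + L) * (1 + A * L) ^ k / c ^ (4 + 4 * k) *
        ((c * (E : ℝ)) ^ (4 + 4 * k) * Real.exp (-(c * E))) := by
        rw [mul_pow, mul_pow]
        have hc' : c ^ (4 + 4 * k) ≠ 0 := by positivity
        field_simp
        ring
    _ ≤ ε / 2 := h5.le


/-- from sets of points to divisor label functions -/
theorem tlc {z x y b K D : ℕ} {P : Finset ℕ} {δ : ℝ} (hP : P ⊆ Icc 1 y)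
    (h : ∀ B : Finset ℕ, B ⊆ Icc 1 y → B.card ≤ K → ∀ d : ℕ → ℕ, (∀ i ∈ B, Sf z (d i)) →
      ∏ i ∈ B, d i ≤ D →
      ((∀ i ∈ B, ∀ j ∈ B, i ≠ j → Nat.Coprime (d i) (d j)) →
        |(((NN x b).filter (fun n => ∀ i ∈ B, d i ∣ n + i ∧ Rg y z (n + i))).card : ℝ)
          - XX x * ∏ i ∈ B, (om y z / d i)| ≤ δ * (XX x * ∏ i ∈ B, (om y z / d i)))
      ∧ (¬ (∀ i ∈ B, ∀ j ∈ B, i ≠ j → Nat.Coprime (d i) (d j)) →
        ((NN x b).filter (fun n => ∀ i ∈ B, d i ∣ n + i ∧ Rg y z (n + i))).card = 0))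
    (d : P → ℕ) (hd : ∀ i, d i = 0 ∨ Sf z (d i)) (hD : ∏ i, max 1 (d i) ≤ D)
    (hK : (univ.filter (fun i => d i ≠ 0)).card ≤ K) :
    ((∀ i j, i ≠ j → d i ≠ 0 → d j ≠ 0 → Nat.Coprime (d i) (d j)) →
      |(((NN x b).filter (fun n => ∀ i, d i ≠ 0 → d i ∣ n + (i : ℕ) ∧
          Rg y z (n + (i : ℕ)))).card : ℝ)
        - XX x * ∏ i, dd (om y z) (d i)| ≤ δ * (XX x * ∏ i, dd (om y z) (d i)))
    ∧ (¬ (∀ i j, i ≠ j → d i ≠ 0 → d j ≠ 0 → Nat.Coprime (d i) (d j)) →
      ((NN x b).filter (fun n => ∀ i, d i ≠ 0 → d i ∣ n + (i : ℕ) ∧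
        Rg y z (n + (i : ℕ)))).card = 0) := by
  set B : Finset ℕ := (univ.filter (fun i => d i ≠ 0)).map
    ⟨fun i : P => (i : ℕ), Subtype.val_injective⟩ with hB
  set d' : ℕ → ℕ := fun i => if h : i ∈ P then d ⟨i, h⟩ else 1 with hd'
  have hdd : ∀ i : P, d' i = d i := by
    intro i
    rw [hd']
    simp
  have hmem : ∀ i : ℕ, i ∈ B ↔ ∃ j : P, d j ≠ 0 ∧ (j : ℕ) = i := by
    intro i
    rw [hB, Finset.mem_map]
    constructor
    · rintro ⟨j, hj, hj'⟩
      exact ⟨j, (Finset.mem_filter.mp hj).2, hj'⟩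
    · rintro ⟨j, hj, hj'⟩
      exact ⟨j, Finset.mem_filter.mpr ⟨Finset.mem_univ _, hj⟩, hj'⟩
  have hall : ∀ p : ℕ → Prop, (∀ i ∈ B, p i) ↔ ∀ j : P, d j ≠ 0 → p (j : ℕ) := by
    intro p
    constructor
    · intro hp j hj
      exact hp _ ((hmem _).mpr ⟨j, hj, rfl⟩)
    · intro hp i hi
      obtain ⟨j, hj, rfl⟩ := (hmem _).mp hi
      exact hp j hj
  have hprod : ∀ (M : Type) [CommMonoid M] (f : ℕ → M), ∏ i ∈ B, f i =
      ∏ i : P, if d i ≠ 0 then f i else 1 := by
    intro M _ f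
    rw [hB, Finset.prod_map, Finset.prod_filter]
    rfl
  have hcop : (∀ i ∈ B, ∀ j ∈ B, i ≠ j → Nat.Coprime (d' i) (d' j)) ↔
      (∀ i j, i ≠ j → d i ≠ 0 → d j ≠ 0 → Nat.Coprime (d i) (d j)) := by
    rw [hall]
    constructor
    · intro h1 i j hij hi hj
      have h2 := (hall _).mp (h1 i hi) j hj (fun h3 => hij (Subtype.ext h3))
      rwa [hdd, hdd] at h2
    · intro h1 i hi
      rw [hall]
      intro j hj hij
      rw [hdd, hdd]
      exact h1 i j (fun h3 => hij (by rw [h3])) hi hj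
  have hfil : (NN x b).filter (fun n => ∀ i ∈ B, d' i ∣ n + i ∧ Rg y z (n + i)) =
      (NN x b).filter (fun n => ∀ i, d i ≠ 0 → d i ∣ n + (i : ℕ) ∧ Rg y z (n + (i : ℕ))) := by
    refine Finset.filter_congr fun n _ => ?_
    rw [hall]
    refine forall_congr' fun j => ?_
    rw [hdd]
  have hpr : ∏ i ∈ B, (om y z / (d' i : ℝ)) = ∏ i, dd (om y z) (d i) := by
    rw [hprod]
    refine Finset.prod_congr rfl fun i _ => ?_
    rw [hdd]
    unfold dd
    by_cases hi : d i = 0 <;> simp [hi]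
  have hsub : B ⊆ Icc 1 y := by
    intro i hi
    obtain ⟨j, _, rfl⟩ := (hmem _).mp hi
    exact hP j.2
  have hcard : B.card ≤ K := by
    rw [hB, Finset.card_map]
    exact hK
  have hsf : ∀ i ∈ B, Sf z (d' i) := by
    rw [hall]
    intro j hj
    rw [hdd]
    exact (hd j).resolve_left hj
  have hle : ∏ i ∈ B, d' i ≤ D := by
    rw [hprod]
    refine le_of_eq_of_le (Finset.prod_congr rfl fun i _ => ?_) hD
    rw [hdd]
    by_cases hi : d i = 0
    · simp [hi]
    · rw [if_pos hi]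
      exact (max_eq_right (by omega)).symm
  have key := h B hsub hcard d' hsf hle
  rw [hcop, hfil, hpr] at key
  exact key


theorem ts (h1 : StmtTL) (h2 : StmtTR) (h3 : StmtMA) (h4 : StmtCO) : StmtTS := by
  intro q hq A ε K hA hε
  obtain ⟨c, hc, h1⟩ := h1
  obtain ⟨ETL, hTL⟩ := h1 (2 * K)
  obtain ⟨_, C', _, hC', h3⟩ := h3
  obtain ⟨C, hC, ECO, hCO⟩ := h4 q hq
  obtain ⟨Ee, hEe⟩ := expo c (3 * C ^ 2 * C' ^ 3) A ε (2 * K) hc (by positivity) hA hε
  refine ⟨max (max ETL ECO) (max Ee (32 * q)), fun E hE => ?_⟩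
  have hE1 : ETL ≤ E := ((le_max_left _ _).trans (le_max_left _ _)).trans hE
  have hE2 : ECO ≤ E := ((le_max_right _ _).trans (le_max_left _ _)).trans hE
  have hE3 : Ee ≤ E := ((le_max_left _ _).trans (le_max_right _ _)).trans hE
  have hE4 : 32 * q ≤ E := ((le_max_right _ _).trans (le_max_right _ _)).trans hE
  have hq1 : 1 ≤ q := hq.1
  have hm1 : 1 ≤ m1 q E := m1_pos hq1 hE4
  have hMM1 : 1 ≤ MM E := by
    unfold MM
    omega
  have hEpos : (1 : ℝ) ≤ E := by
    have : 1 ≤ E := by omega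
    exact_mod_cast this
  obtain ⟨zTL, hTL⟩ := hTL E hE1
  obtain ⟨zCO, hCO⟩ := hCO E hE2
  set Lam : ℝ := 3 * C ^ 2 * (C' * ((2 * MM E : ℕ) : ℝ)) ^ 3 with hLam
  have hLam0 : 0 ≤ Lam := by positivity
  have hLamE : Lam ≤ 3 * C ^ 2 * C' ^ 3 * (E : ℝ) ^ 3 := by
    rw [hLam]
    have h5 : ((2 * MM E : ℕ) : ℝ) ≤ E := by
      have : 2 * MM E ≤ E := by unfold MM; omega
      exact_mod_cast this
    calc 3 * C ^ 2 * (C' * ((2 * MM E : ℕ) : ℝ)) ^ 3 ≤ 3 * C ^ 2 * (C' * (E : ℝ)) ^ 3 := by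
          gcongr
      _ = 3 * C ^ 2 * C' ^ 3 * (E : ℝ) ^ 3 := by ring
  set G : ℝ := (1 + Lam) * (1 + A * E * Lam) ^ (2 * K) with hG
  have hG0 : 0 ≤ G := by positivity
  have hGE : E * G * Real.exp (-(c * E)) ≤ ε / 2 := by
    refine le_trans ?_ (hEe E hE3)
    rw [hG]
    gcongr
  set W : ℝ := E * G * (9 * ((2 * K : ℕ) : ℝ) ^ 2) with hW
  have hW0 : 0 ≤ W := by positivity
  refine ⟨max (max zTL zCO) (max 2 ⌈W * 2 / ε⌉₊), fun z hz x y hS b hb P hP hPA T cc F hF
    hT1 hT2 hT3 hT4 hT5 => ?_⟩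
  have hz1 : zTL ≤ z := ((le_max_left _ _).trans (le_max_left _ _)).trans hz
  have hz2 : zCO ≤ z := ((le_max_right _ _).trans (le_max_left _ _)).trans hz
  have hz3 : 2 ≤ z := ((le_max_left _ _).trans (le_max_right _ _)).trans hz
  have hz4 : ⌈W * 2 / ε⌉₊ ≤ z := ((le_max_right _ _).trans (le_max_right _ _)).trans hz
  have hWz : W / z ≤ ε / 2 := by
    have h5 : W * 2 / ε ≤ z := (Nat.le_ceil _).trans (by exact_mod_cast hz4)
    have hzp : (0 : ℝ) < z := by
      have : 0 < z := by omega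
      exact_mod_cast this
    rw [div_le_iff₀ hε] at h5
    rw [div_le_iff₀ hzp]
    linarith
  set al : P → ℕ → ℝ := fun i r =>
    if i ∈ F then (if r ∈ SS z (z ^ MM E) then 1 / (V1 E z * (Nat.totient r : ℝ)) else 0)
    else (if r = 0 then 1 else if r ∈ LA z (m1 q E) (m2 q E) then aa q E z r else 0) with hal
  set BB : Finset (Finset P) :=
    (univ : Finset (Finset P)).filter (fun B => F ⊆ B ∧ B.card ≤ 2 * K) with hBB
  have hz0 : 1 ≤ z := by omega
  have hSS0 : ∀ r, r ∈ SS z (z ^ MM E) → r ≠ 0 := by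
    intro r hr
    have := (mem_SS.mp hr).1.1
    omega
  have hLA0 : ∀ r, r ∈ LA z (m1 q E) (m2 q E) → r ≠ 0 := fun r hr =>
    hSS0 r (LA_sub hz0 (m2_le q E) hr)
  have hlab : ∀ r ∈ T, ∀ i, r i = 0 ∨ r i ∈ SS z (z ^ MM E) := by
    intro r hr i
    by_cases hi : i ∈ F
    · exact Or.inr (hT2 r hr i hi)
    · rcases hT1 r hr i hi with h5 | h5
      · exact Or.inl h5
      · exact Or.inr (LA_sub hz0 (m2_le q E) h5)
  have hV1 := V1_nonneg E z
  have key := h2 P (fun i => (i : ℕ)) y z (z ^ MM E) (z ^ (E / 4)) (2 * K) (NN x b) (XX x)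
    (om y z) (Real.exp (-(c * E))) C T cc al BB hz3 (XX_nonneg x) (om_nonneg y z)
    (Real.exp_pos _).le hC hlab ?_ ?_ ?_ ?_ ?_ ?_ ?_ ?_ ?_
  · refine key.trans ?_
    have hX2 : (z ^ MM E) ^ 2 = z ^ (2 * MM E) := by rw [← pow_mul, mul_comm]
    have hMA := (h3 z (2 * MM E) hz3 (by omega)).2.2
    rw [← hX2] at hMA
    set u : ℝ := 3 * C ^ 2 * ∑ e ∈ SS z ((z ^ MM E) ^ 2), (3 : ℝ) ^ e.primeFactors.card / e
      with hu
    have hu0 : 0 ≤ u := by positivity
    have huL : u ≤ Lam := by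
      rw [hu, hLam]
      exact mul_le_mul_of_nonneg_left hMA (by positivity)
    have ho := om_nonneg y z
    have hsum := sumBB F (2 * K) (om y z * u) (mul_nonneg ho hu0)
    have hnu : (Fintype.card P : ℝ) * (om y z * u) ≤ A * E * Lam := by
      rw [Fintype.card_coe]
      calc (P.card : ℝ) * (om y z * u) = (P.card : ℝ) * om y z * u := by ring
        _ ≤ A * E * Lam := mul_le_mul hPA huL hu0 (by positivity)
    have hpw : (om y z * u) ^ F.card ≤ om y z ^ F.card * (1 + Lam) := by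
      rw [mul_pow]
      refine mul_le_mul_of_nonneg_left ?_ (by positivity)
      rcases Nat.le_one_iff_eq_zero_or_eq_one.mp hF with h5 | h5 <;> rw [h5]
      · simp [hLam0]
      · rw [pow_one]
        linarith
    have hsum2 : ∑ B ∈ BB, (om y z * u) ^ B.card ≤ om y z ^ F.card * G := by
      refine hsum.trans ?_
      have h8 : om y z ^ F.card * G = om y z ^ F.card * (1 + Lam) *
          (1 + A * E * Lam) ^ (2 * K) := by
        rw [hG]
        ring
      rw [h8]
      refine mul_le_mul hpw ?_ (by positivity) (by positivity)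
      exact pow_le_pow_left₀ (by positivity) (by linarith) _
    have hδ : 0 ≤ Real.exp (-(c * E)) + 9 * ((2 * K : ℕ) : ℝ) ^ 2 / z := by positivity
    have hfin : (Real.exp (-(c * E)) + 9 * ((2 * K : ℕ) : ℝ) ^ 2 / z) * G ≤ ε / E := by
      rw [le_div_iff₀ (by linarith)]
      calc (Real.exp (-(c * E)) + 9 * ((2 * K : ℕ) : ℝ) ^ 2 / z) * G * E
          = E * G * Real.exp (-(c * E)) + W / z := by
            rw [hW]
            ring
        _ ≤ ε / 2 + ε / 2 := add_le_add hGE hWz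
        _ = ε := by ring
    calc XX x * (Real.exp (-(c * E)) + 9 * ((2 * K : ℕ) : ℝ) ^ 2 / z) *
          ∑ B ∈ BB, (om y z * u) ^ B.card
        ≤ XX x * (Real.exp (-(c * E)) + 9 * ((2 * K : ℕ) : ℝ) ^ 2 / z) *
          (om y z ^ F.card * G) :=
          mul_le_mul_of_nonneg_left hsum2 (mul_nonneg (XX_nonneg x) hδ)
      _ = ((Real.exp (-(c * E)) + 9 * ((2 * K : ℕ) : ℝ) ^ 2 / z) * G) *
          (om y z ^ F.card * XX x) := by ring
      _ ≤ ε / E * (om y z ^ F.card * XX x) :=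
          mul_le_mul_of_nonneg_right hfin (mul_nonneg (by positivity) (XX_nonneg x))
      _ = ε / E * om y z ^ F.card * XX x := by ring
  · -- a label `1` only occurs on `F`
    intro r hr s hs i hi
    by_cases hiF : i ∈ F
    · exact hSS0 _ (hT2 s hs i hiF)
    · exfalso
      rcases hT1 r hr i hiF with h5 | h5
      · omega
      · have h6 := (mem_LA.mp h5).2
        have h7 : z ^ 1 ≤ z ^ m1 q E := Nat.pow_le_pow_right hz0 hm1
        rw [pow_one] at h7
        omega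
  · -- size
    intro r hr
    calc (∏ i, max 1 (r i)) ^ 2 ≤ (z ^ (2 * MM E)) ^ 2 := Nat.pow_le_pow_left (hT4 r hr) 2
      _ = z ^ (2 * MM E * 2) := by rw [← pow_mul]
      _ ≤ z ^ (E / 4) := Nat.pow_le_pow_right hz0 (by unfold MM; omega)
  · -- supports
    intro r hr s hs
    rw [hBB, Finset.mem_filter]
    refine ⟨Finset.mem_univ _, ?_, ?_⟩
    · intro i hi
      exact Finset.mem_filter.mpr ⟨Finset.mem_univ _, Or.inl (hSS0 _ (hT2 r hr i hi))⟩
    · rw [Finset.filter_or]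
      refine (Finset.card_union_le _ _).trans ?_
      have h5 := hT3 r hr
      have h6 := hT3 s hs
      omega
  · intro B hB
    rw [hBB, Finset.mem_filter] at hB
    exact hB.2.2
  · -- nonnegativity
    intro i r
    rw [hal]
    have h5 := aa_nonneg q E z r
    simp only
    split_ifs <;> positivity
  · intro i
    rw [hal]
    simp only
    by_cases hi : i ∈ F
    · rw [if_pos hi, if_neg (fun h5 => hSS0 0 h5 rfl)]
      norm_num
    · rw [if_neg hi]
      simp
  · -- the coefficients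
    intro r hr
    refine (hT5 r hr).trans (le_of_eq (Finset.prod_congr rfl fun i _ => ?_))
    rw [hal]
    simp only
    by_cases hi : i ∈ F
    · rw [if_pos hi, if_pos hi, if_pos (hT2 r hr i hi)]
    · rw [if_neg hi, if_neg hi]
      rcases hT1 r hr i hi with h5 | h5
      · rw [if_pos h5, if_pos h5]
      · rw [if_neg (hLA0 _ h5), if_neg (hLA0 _ h5), if_pos h5]
  · -- divisor sums
    intro i d hd
    obtain ⟨hc1, hc2⟩ := hCO z hz2 d hd
    by_cases hi : i ∈ F
    · have h5 : ∑ r ∈ (SS z (z ^ MM E)).filter (fun r => d ∣ r), al i r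
          = 1 / V1 E z * ∑ r ∈ (SS z (z ^ MM E)).filter (fun r => d ∣ r),
            1 / (Nat.totient r : ℝ) := by
        rw [Finset.mul_sum]
        refine Finset.sum_congr rfl fun r hr => ?_
        rw [hal]
        simp only
        rw [if_pos hi, if_pos (Finset.mem_filter.mp hr).1, one_div_mul_one_div]
      rw [h5]
      have h6 : ∑ r ∈ SS z (z ^ MM E), 1 / (Nat.totient r : ℝ) = V1 E z := rfl
      rw [h6] at hc2
      rcases hV1.eq_or_lt with h7 | h7
      · rw [← h7]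
        simp
        linarith
      · calc (d : ℝ) * (1 / V1 E z * ∑ r ∈ (SS z (z ^ MM E)).filter (fun r => d ∣ r),
            1 / (Nat.totient r : ℝ))
            = ((d : ℝ) * ∑ r ∈ (SS z (z ^ MM E)).filter (fun r => d ∣ r),
            1 / (Nat.totient r : ℝ)) / V1 E z := by ring
          _ ≤ C * V1 E z / V1 E z := by gcongr
          _ = C := by field_simp
    · refine le_of_eq_of_le ?_ hc1
      congr 1
      have h5 : ∀ r ∈ (SS z (z ^ MM E)).filter (fun r => d ∣ r), al i r =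
          if r ∈ LA z (m1 q E) (m2 q E) then aa q E z r else 0 := by
        intro r hr
        rw [hal]
        simp only
        rw [if_neg hi, if_neg (hSS0 r (Finset.mem_filter.mp hr).1)]
      rw [Finset.sum_congr rfl h5, ← Finset.sum_filter]
      refine Finset.sum_congr ?_ fun _ _ => rfl
      ext r
      simp only [Finset.mem_filter]
      constructor
      · rintro ⟨⟨_, h7⟩, h8⟩
        exact ⟨h8, h7⟩
      · rintro ⟨h7, h8⟩
        exact ⟨⟨LA_sub hz0 (m2_le q E) h7, h8⟩, h7⟩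
  · -- counting
    intro d hd hD hdB
    rw [hBB, Finset.mem_filter] at hdB
    exact tlc hP (hTL z hz1 x y hS b hb) d hd hD hdB.2.2

end Pool.Agent.Helper3.PP
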